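import Pool.Agent.W990.EB.Stm

/-! # Geometric sums -/

open Finset

namespace W999.EB

open Pool.Agent.W990.EB

theorem geo : S_GEO := by
  intro ε t M hε hεt ht1 hM
  have ht : 0 < t := lt_of_lt_of_le hε hεt
  set q : ℝ := Real.exp (-(2 * t)) with hq
  have hq0 : 0 < q := Real.exp_pos _
  have hq1 : q < 1 := by
    rw [hq, Real.exp_lt_one_iff]
    linarith
  have hqn : ∀ n : ℕ, Real.exp (-(2 * t * n)) = q ^ n := by
    intro n
    rw [hq, ← Real.exp_nat_mul]
    congr 1
    ring
  have h1q : 0 < 1 - q := by linarith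
  -- bounds of 1 / (1 - q)
  have hlow : 1 / (2 * t) ≤ 1 / (1 - q) := by
    apply one_div_le_one_div_of_le h1q
    have := Real.add_one_le_exp (-(2 * t))
    rw [← hq] at this
    linarith
  have hqup : q * (1 + 2 * t) ≤ 1 := by
    have h1 := Real.add_one_le_exp (2 * t)
    have h2 : q * Real.exp (2 * t) = 1 := by
      rw [hq, ← Real.exp_add, neg_add_cancel, Real.exp_zero]
    nlinarith
  have hup : 1 / (1 - q) ≤ 1 / (2 * t) + 1 := by
    have h3 : 1 / (2 * t) + 1 = (1 + 2 * t) / (2 * t) := by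
      field_simp
    rw [h3, div_le_div_iff₀ h1q (by positivity)]
    nlinarith
  -- the tail
  have hT : q ^ (M + 1) / (1 - q) ≤ 1 := by
    have h4 : q ^ (M + 1) ≤ Real.exp (-(2 / ε)) := by
      rw [← hqn, Real.exp_le_exp, neg_le_neg_iff]
      have h5 : 1 / ε ≤ ε * M := by
        have h6 := mul_le_mul_of_nonneg_left hM hε.le
        calc 1 / ε = ε * (1 / ε ^ 2) := by field_simp
          _ ≤ _ := h6
      have h7 : ε * M ≤ t * M := mul_le_mul_of_nonneg_right hεt (Nat.cast_nonneg _)
      have h8 : 2 / ε = 2 * (1 / ε) := by ring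
      push_cast
      rw [h8]
      nlinarith
    have h9 : 1 / (1 - q) ≤ 1 / (2 * ε) + 1 := by
      refine hup.trans (add_le_add_left ?_ 1)
      exact one_div_le_one_div_of_le (by positivity) (by linarith)
    have h10 : Real.exp (-(2 / ε)) * Real.exp (2 / ε) = 1 := by
      rw [← Real.exp_add, neg_add_cancel, Real.exp_zero]
    have h11 := Real.add_one_le_exp (2 / ε)
    have h12 : 1 / (2 * ε) + 1 ≤ Real.exp (2 / ε) := by
      refine le_trans ?_ h11
      have h13 : 1 / (2 * ε) ≤ 2 / ε := by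
        rw [div_le_div_iff₀ (by positivity) hε]
        linarith
      linarith
    calc q ^ (M + 1) / (1 - q) = q ^ (M + 1) * (1 / (1 - q)) := by ring
      _ ≤ Real.exp (-(2 / ε)) * (1 / (2 * ε) + 1) :=
        mul_le_mul h4 h9 (by positivity) (Real.exp_pos _).le
      _ ≤ Real.exp (-(2 / ε)) * Real.exp (2 / ε) :=
        mul_le_mul_of_nonneg_left h12 (Real.exp_pos _).le
      _ = 1 := h10
  refine ⟨?_, ?_⟩
  · have h14 : ∑ n ∈ range (M + 1), Real.exp (-(2 * t * n)) = 1 / (1 - q) - q ^ (M + 1) / (1 - q) := by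
      rw [Finset.sum_congr rfl fun n _ => hqn n, geom_sum_eq hq1.ne]
      rw [← sub_div, ← neg_div_neg_eq]
      congr 1 <;> ring
    rw [h14, abs_le]
    have h15 : 0 ≤ q ^ (M + 1) / (1 - q) := by positivity
    constructor <;> linarith
  · intro L
    rw [Finset.sum_congr rfl fun n _ => hqn n]
    exact (geom_sum_Ico_le_of_lt_one hq0.le hq1).trans hT

end W999.EB
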